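import Pool.Agent.Q211.Graphon.Defs

open Finset

namespace Pool.Agent.Q211.Graphon

/-- In a Hamiltonian graph, a set `S` of vertices has at most `|K|` + (number of ordered edges
from `S` avoiding `K`) elements. -/
lemma card_le_of_hamiltonian {n : ℕ} (G : SimpleGraph (Fin n)) (hn : n ≠ 1)
    (hG : G.IsHamiltonian) (S K : Finset (Fin n)) (M : Finset (Fin n × Fin n))
    (hM : ∀ i j, G.Adj i j → i ∈ S → j ∉ K → (i, j) ∈ M) : S.card ≤ K.card + M.card := by
  classical
  obtain ⟨a, p, hp⟩ := hG (by simpa using hn)
  have hlen : p.length = n := by simpa using hp.length_eq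
  have hnil : ¬ p.Nil := hp.isCycle.not_nil
  -- successor map
  have hpath : p.tail.IsPath := hp.isHamiltonian_tail.isPath
  have htl : p.tail.length + 1 = n := by rw [p.length_tail_add_one hnil, hlen]
  have hget : ∀ t, p.tail.getVert t = p.getVert (t + 1) := fun t => by
    rw [SimpleGraph.Walk.getVert_tail]
  have hinj : Set.InjOn (fun t => p.getVert (t + 1)) (range n : Set ℕ) := by
    intro s hs t ht hst
    simp only [coe_range, Set.mem_Iio] at hs ht
    simp only at hst
    rw [← hget, ← hget] at hst
    exact hpath.getVert_injOn (by simp; omega) (by simp; omega) hst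
  have hsurj : ∀ v : Fin n, ∃ t < n, p.getVert t = v := by
    intro v
    obtain ⟨t, ht⟩ := hp.isHamiltonian_tail.getVert_surjective v
    by_cases hlt : t < p.tail.length
    · exact ⟨t + 1, by omega, by rw [← hget]; exact ht⟩
    · refine ⟨0, by omega, ?_⟩
      rw [SimpleGraph.Walk.getVert_of_length_le _ (by omega)] at ht
      rw [← ht]
      simp
  have hadj : ∀ t < n, G.Adj (p.getVert t) (p.getVert (t + 1)) := fun t ht =>
    p.adj_getVert_succ (by omega)
  -- counting
  have h1 : S.card ≤ ((range n).filter fun t => p.getVert t ∈ S).card := by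
    have : S ⊆ ((range n).filter fun t => p.getVert t ∈ S).image fun t => p.getVert t := by
      intro v hv
      obtain ⟨t, ht, htv⟩ := hsurj v
      exact mem_image.2 ⟨t, mem_filter.2 ⟨mem_range.2 ht, by rw [htv]; exact hv⟩, htv⟩
    exact (card_le_card this).trans card_image_le
  have h2 : ((range n).filter fun t => p.getVert t ∈ S).card ≤
      ((range n).filter fun t => p.getVert (t + 1) ∈ K).card +
      ((range n).filter fun t => p.getVert t ∈ S ∧ p.getVert (t + 1) ∉ K).card := by
    refine le_trans (card_le_card ?_) (card_union_le _ _)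
    intro t ht
    simp only [mem_filter, mem_range, mem_union] at ht ⊢
    by_cases h : p.getVert (t + 1) ∈ K
    · exact Or.inl ⟨ht.1, h⟩
    · exact Or.inr ⟨ht.1, ht.2, h⟩
  have h3 : ((range n).filter fun t => p.getVert (t + 1) ∈ K).card ≤ K.card := by
    apply card_le_card_of_injOn (fun t => p.getVert (t + 1))
    · intro t ht
      exact (mem_filter.1 ht).2
    · exact hinj.mono (by intro t ht; exact_mod_cast (mem_filter.1 ht).1)
  have h4 : ((range n).filter fun t => p.getVert t ∈ S ∧ p.getVert (t + 1) ∉ K).card ≤
      M.card := by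
    apply card_le_card_of_injOn (fun t => (p.getVert t, p.getVert (t + 1)))
    · intro t ht
      have ht' := mem_filter.1 ht
      exact hM _ _ (hadj t (mem_range.1 ht'.1)) ht'.2.1 ht'.2.2
    · intro s hs t ht hst
      have hs' := (mem_filter.1 hs).1
      have ht' := (mem_filter.1 ht).1
      exact hinj (by exact_mod_cast hs') (by exact_mod_cast ht') (Prod.ext_iff.1 hst).2
  omega

end Pool.Agent.Q211.Graphon
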