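import Mathlib

/-! Graphons, their random graphs, and the four obstructions to Hamiltonicity. -/

open MeasureTheory Set Filter Topology

namespace Pool.Agent.Q211.Graphon

/-- `W` is a graphon: jointly measurable, symmetric, with values in `[0,1]`. -/
structure IsGraphon {Ω : Type*} [MeasurableSpace Ω] (W : Ω → Ω → ℝ) : Prop where
  measurable : Measurable (Function.uncurry W)
  symm : ∀ x y, W x y = W y x
  nonneg : ∀ x y, 0 ≤ W x y
  le_one : ∀ x y, W x y ≤ 1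

/-- `W` is connected: `∫_{S×T} W > 0` for every measurable partition `Ω = S ⊔ T` into sets of
positive measure. -/
def IsConnected {Ω : Type*} [MeasurableSpace Ω] (μ : Measure Ω) (W : Ω → Ω → ℝ) : Prop :=
  ∀ S : Set Ω, MeasurableSet S → 0 < μ S → 0 < μ Sᶜ →
    0 < ∫ p in S ×ˢ Sᶜ, Function.uncurry W p ∂(μ.prod μ)

/-- The degree of a point. -/
noncomputable def deg {Ω : Type*} [MeasurableSpace Ω] (μ : Measure Ω) (W : Ω → Ω → ℝ) (x : Ω) : ℝ :=
  ∫ y, W x y ∂μ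

/-- Condition (ii): `μ (D_W(α)) / α → ∞` as `α ↓ 0`, where `D_W(α) = {x : deg_W x ≤ α}`. -/
def ManyLowDegrees {Ω : Type*} [MeasurableSpace Ω] (μ : Measure Ω) (W : Ω → Ω → ℝ) : Prop :=
  Tendsto (fun α : ℝ => μ.real {x | deg μ W x ≤ α} / α) (𝓝[>] 0) atTop

/-- Condition (iii): `W` has a narrow peninsula (vanishing is only required almost everywhere). -/
def HasNarrowPeninsula {Ω : Type*} [MeasurableSpace Ω] (μ : Measure Ω) (W : Ω → Ω → ℝ) : Prop :=
  ∃ (a : ℝ) (A B : Set Ω), 0 < a ∧ a ≤ 1 / 2 ∧ MeasurableSet A ∧ MeasurableSet B ∧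
    Disjoint A B ∧ a < μ.real A ∧ μ.real B = 1 - 2 * a ∧
    ∀ᵐ p ∂(μ.prod μ), p.1 ∈ A → p.2 ∈ A ∪ B → W p.1 p.2 = 0

/-- Condition (iv): `W` vanishes a.e. on `S × S` and on `T × T` for a partition into halves. -/
def IsBalancedBipartite {Ω : Type*} [MeasurableSpace Ω] (μ : Measure Ω) (W : Ω → Ω → ℝ) : Prop :=
  ∃ S : Set Ω, MeasurableSet S ∧ μ.real S = 1 / 2 ∧ μ.real Sᶜ = 1 / 2 ∧
    ∀ᵐ p ∂(μ.prod μ), (p.1 ∈ S ∧ p.2 ∈ S ∨ p.1 ∈ Sᶜ ∧ p.2 ∈ Sᶜ) → W p.1 p.2 = 0

/-- Lebesgue measure on `[0,1]`, as a measure on `ℝ`. -/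
noncomputable def unif : Measure ℝ := volume.restrict (Icc 0 1)

/-- The graph on `Fin n` built from the types `X i` and the labels `U e` of the pairs `e`:
`i ≠ j` are adjacent when `U s(i,j) < W (X i) (X j)`. -/
def graph {Ω : Type*} (W : Ω → Ω → ℝ) (n : ℕ) (X : Fin n → Ω) (U : Sym2 (Fin n) → ℝ) :
    SimpleGraph (Fin n) :=
  SimpleGraph.fromRel fun i j => U s(i, j) < W (X i) (X j)

/-- The law of `(X, U)`: the types are i.i.d. with law `μ`, the labels of the pairs are i.i.d.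
uniform on `[0,1]`, and types and labels are independent. -/
noncomputable def sample {Ω : Type*} [MeasurableSpace Ω] (μ : Measure Ω) (n : ℕ) :
    Measure ((Fin n → Ω) × (Sym2 (Fin n) → ℝ)) :=
  (Measure.pi fun _ => μ).prod (Measure.pi fun _ => unif)

/-- Probability that `𝔾(n, W)` is Hamiltonian. -/
noncomputable def probHam {Ω : Type*} [MeasurableSpace Ω] (μ : Measure Ω) (W : Ω → Ω → ℝ)
    (n : ℕ) : ENNReal :=
  sample μ n {p | (graph W n p.1 p.2).IsHamiltonian}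

end Pool.Agent.Q211.Graphon
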