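import Pool.Agent.Q211.Graphon.W
import Pool.Agent.Q211.Graphon.Comb

open MeasureTheory Set Filter Topology ProbabilityTheory

namespace Pool.Agent.Q211.Graphon

/-- one vertex contribution. -/
noncomputable def fx (x u : ℝ) : ℝ :=
  (Ico (1 / 3) (2 / 3 + x)).indicator (fun _ => (1:ℝ)) u - (Iio (1 / 3)).indicator (fun _ => 1) u

lemma fx_meas (x : ℝ) : Measurable (fx x) :=
  (measurable_const.indicator measurableSet_Ico).sub (measurable_const.indicator measurableSet_Iio)

lemma fx_abs (x u : ℝ) : |fx x u| ≤ 1 := by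
  unfold fx indicator
  split_ifs <;> norm_num

lemma fx_mean {x : ℝ} (h0 : 0 ≤ x) (h1 : x ≤ 1 / 3) : ∫ u, fx x u ∂unif = x := by
  unfold fx
  rw [integral_sub ((integrable_const 1).indicator measurableSet_Ico)
    ((integrable_const 1).indicator measurableSet_Iio), integral_indicator measurableSet_Ico,
    integral_indicator measurableSet_Iio, setIntegral_const, setIntegral_const,
    unif_real_Ico (by norm_num) (by linarith) (by linarith),
    unif_real_Iio (by norm_num) (by norm_num)]
  simp only [smul_eq_mul, mul_one]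
  ring

lemma fx_memLp (x : ℝ) : MemLp (fx x) 2 unif :=
  MemLp.of_bound (fx_meas x).aestronglyMeasurable 1 (Eventually.of_forall (fx_abs x))

lemma fx_var (x : ℝ) : variance (fx x) unif ≤ 1 := by
  refine (variance_le_expectation_sq (fx_meas x).aestronglyMeasurable).trans ?_
  calc ∫ u, (fx x ^ 2) u ∂unif ≤ ∫ _u, (1:ℝ) ∂unif := by
        apply integral_mono_of_nonneg
        · exact Eventually.of_forall fun u => sq_nonneg _
        · exact integrable_const 1
        · refine Eventually.of_forall fun u => ?_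
          have := fx_abs x u
          simp only [Pi.pow_apply]
          rw [← sq_abs]
          exact pow_le_one₀ (abs_nonneg _) this
    _ = 1 := by simp

lemma cheb {n : ℕ} (hn : 0 < n) {x : ℝ} (h0 : 0 < x) (h1 : x ≤ 1 / 3) :
    (Measure.pi fun _ : Fin n => unif) {X | ∑ i, fx x (X i) ≤ n * x / 2} ≤
      ENNReal.ofReal (4 / (n * x ^ 2)) := by
  set ν := Measure.pi fun _ : Fin n => unif with hν
  set Z : (Fin n → ℝ) → ℝ := ∑ i, fun X => fx x (X i) with hZ
  have hZa : ∀ X, Z X = ∑ i, fx x (X i) := fun X => by simp [hZ]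
  have hvar : variance Z ν ≤ n := by
    have := variance_sum_pi (μ := fun _ : Fin n => unif) (X := fun _ => fx x)
      (fun i => fx_memLp x)
    rw [hZ, hν, this]
    calc ∑ i : Fin n, variance (fx x) unif ≤ ∑ _i : Fin n, (1:ℝ) :=
          Finset.sum_le_sum fun i _ => fx_var x
      _ = n := by simp
  have hmean : ∫ X, Z X ∂ν = n * x := by
    simp only [hZa]
    rw [integral_finsetSum]
    · simp only [hν]
      have : ∀ i : Fin n, ∫ X : Fin n → ℝ, fx x (X i) ∂(Measure.pi fun _ : Fin n => unif) = x := by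
        intro i
        rw [integral_comp_eval (μ := fun _ : Fin n => unif) (fx_meas x).aestronglyMeasurable,
          fx_mean h0.le h1]
      rw [Finset.sum_congr rfl fun i _ => this i]
      simp
    · intro i _
      exact Integrable.of_bound ((fx_meas x).comp (measurable_pi_apply i)).aestronglyMeasurable 1
        (Eventually.of_forall fun X => fx_abs x _)
  have hL : MemLp Z 2 ν := by
    rw [hZ]
    apply memLp_finsetSum'
    intro i _
    exact MemLp.of_bound ((fx_meas x).comp (measurable_pi_apply i)).aestronglyMeasurable 1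
      (Eventually.of_forall fun X => fx_abs x _)
  have hn' : (0:ℝ) < n := by exact_mod_cast hn
  have hc : (0:ℝ) < n * x / 2 := by positivity
  have hch := meas_ge_le_variance_div_sq hL hc
  refine (measure_mono ?_).trans (hch.trans ?_)
  · intro X hX
    simp only [Set.mem_ofPred_eq] at hX ⊢
    rw [hmean, hZa, abs_sub_comm]
    refine le_trans ?_ (le_abs_self _)
    linarith
  · apply ENNReal.ofReal_le_ofReal
    calc variance Z ν / (n * x / 2) ^ 2 ≤ n / (n * x / 2) ^ 2 := by gcongr
      _ = 4 / (n * x ^ 2) := by field_simp; ring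

/-- the rare event for an ordered pair. -/
def rare (x : ℝ) {n : ℕ} (i j : Fin n) (p : (Fin n → ℝ) × (Sym2 (Fin n) → ℝ)) : Prop :=
  (p.1 i ∈ Ico (2 / 3) (2 / 3 + x) ∧ p.2 s(i, j) < x ^ 3) ∨ p.2 s(i, j) < 0

lemma rare_of_adj {x : ℝ} {n : ℕ} {i j : Fin n} {p : (Fin n → ℝ) × (Sym2 (Fin n) → ℝ)}
    (h : (graph W n p.1 p.2).Adj i j) (hi : p.1 i ∈ Ico (1 / 3) (2 / 3 + x))
    (hj : 1 / 3 ≤ p.1 j) : rare x i j p := by
  unfold graph at h
  rw [SimpleGraph.fromRel_adj] at h
  have h2 : p.2 s(i, j) < W (p.1 i) (p.1 j) := by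
    rcases h.2 with h | h
    · exact h
    · rwa [Sym2.eq_swap, W_symm] at h
  have h3 := W_le_pow hi.1 hj
  rcases le_or_gt (p.1 i) (2 / 3) with h4 | h4
  · right
    have : sh (p.1 i) = 0 := max_eq_right (by linarith)
    rw [this] at h3
    norm_num at h3
    linarith
  · left
    refine ⟨⟨h4.le, hi.2⟩, ?_⟩
    have h5 : sh (p.1 i) = p.1 i - 2 / 3 := max_eq_left (by linarith)
    have h6 : sh (p.1 i) ^ 3 ≤ x ^ 3 := by
      apply pow_le_pow_left₀ (sh_nonneg _)
      rw [h5]; linarith [hi.2]
    linarith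

lemma prob_rare {x : ℝ} (h0 : 0 ≤ x) (h1 : x ≤ 1 / 3) {n : ℕ} (i j : Fin n) :
    sample unif n {p | rare x i j p} ≤ ENNReal.ofReal (x ^ 4) := by
  have hsub : {p : (Fin n → ℝ) × (Sym2 (Fin n) → ℝ) | rare x i j p} ⊆
      ((Function.eval i ⁻¹' Ico (2 / 3) (2 / 3 + x)) ×ˢ
        (Function.eval s(i, j) ⁻¹' Iio (x ^ 3))) ∪
      (univ ×ˢ (Function.eval s(i, j) ⁻¹' Iio 0)) := by
    rintro p (⟨h1, h2⟩ | h)
    · exact Or.inl ⟨h1, h2⟩
    · exact Or.inr ⟨mem_univ _, h⟩
  refine (measure_mono hsub).trans ((measure_union_le _ _).trans ?_)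
  unfold sample
  rw [Measure.prod_prod, Measure.prod_prod,
    (measurePreserving_eval (fun _ : Fin n => unif) i).measure_preimage
      measurableSet_Ico.nullMeasurableSet,
    (measurePreserving_eval (fun _ : Sym2 (Fin n) => unif) s(i, j)).measure_preimage
      measurableSet_Iio.nullMeasurableSet,
    (measurePreserving_eval (fun _ : Sym2 (Fin n) => unif) s(i, j)).measure_preimage
      measurableSet_Iio.nullMeasurableSet,
    unif_Ico (by norm_num) (by linarith), unif_Iio (by
      calc x ^ 3 ≤ 1 ^ 3 := pow_le_pow_left₀ h0 (by linarith) 3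
        _ = 1 := by norm_num), unif_Iio (by norm_num), ← ENNReal.ofReal_mul (by linarith)]
  simp only [ENNReal.ofReal_zero, mul_zero, add_zero]
  apply ENNReal.ofReal_le_ofReal
  apply le_of_eq; ring

open Classical in
lemma probHam_le {n : ℕ} (hn : 2 ≤ n) {x : ℝ} (h0 : 0 < x) (h1 : x ≤ 1 / 3) :
    probHam unif W n ≤ ENNReal.ofReal (4 / (n * x ^ 2)) + ENNReal.ofReal (2 * n * x ^ 3) := by
  set Mf : ((Fin n → ℝ) × (Sym2 (Fin n) → ℝ)) → Finset (Fin n × Fin n) :=
    fun p => Finset.univ.filter fun q => rare x q.1 q.2 p with hMf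
  have hn' : (0:ℝ) < n := by exact_mod_cast (by omega : 0 < n)
  have hsub : {p : (Fin n → ℝ) × (Sym2 (Fin n) → ℝ) | (graph W n p.1 p.2).IsHamiltonian} ⊆
      ({X | ∑ i, fx x (X i) ≤ n * x / 2} ×ˢ univ) ∪
        {p | ENNReal.ofReal (n * x / 2) ≤ ((Mf p).card : ENNReal)} := by
    intro p hp
    by_cases hZ : ∑ i, fx x (p.1 i) ≤ n * x / 2
    · exact Or.inl ⟨hZ, mem_univ _⟩
    · right
      push Not at hZ
      set S : Finset (Fin n) := Finset.univ.filter fun i => p.1 i ∈ Ico (1 / 3) (2 / 3 + x) with hS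
      set K : Finset (Fin n) := Finset.univ.filter fun i => p.1 i ∈ Iio (1 / 3) with hK
      have hcard := card_le_of_hamiltonian (graph W n p.1 p.2) (by omega) hp S K (Mf p) (by
        intro i j hadj hi hj
        simp only [hS, hK, Finset.mem_filter, Finset.mem_univ, true_and, mem_Iio, not_lt] at hi hj
        simp only [hMf, Finset.mem_filter, Finset.mem_univ, true_and]
        exact rare_of_adj hadj hi hj)
      have hsum : ∑ i, fx x (p.1 i) = (S.card : ℝ) - K.card := by
        unfold fx
        rw [Finset.sum_sub_distrib]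
        congr 1
        · rw [hS, Finset.card_filter]
          push_cast
          apply Finset.sum_congr rfl
          intro i _
          simp [indicator]
        · rw [hK, Finset.card_filter]
          push_cast
          apply Finset.sum_congr rfl
          intro i _
          simp [indicator]
      have h3 : (S.card : ℝ) ≤ K.card + (Mf p).card := by exact_mod_cast hcard
      have h4 : n * x / 2 ≤ ((Mf p).card : ℝ) := by
        rw [hsum] at hZ; linarith
      show ENNReal.ofReal (n * x / 2) ≤ ((Mf p).card : ENNReal)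
      rw [← ENNReal.ofReal_natCast]
      exact ENNReal.ofReal_le_ofReal h4
  have hrm : ∀ q : Fin n × Fin n, MeasurableSet
      {p : (Fin n → ℝ) × (Sym2 (Fin n) → ℝ) | rare x q.1 q.2 p} := by
    intro q
    have hA : Measurable fun p : (Fin n → ℝ) × (Sym2 (Fin n) → ℝ) => p.1 q.1 :=
      (measurable_pi_apply _).comp measurable_fst
    have hB : Measurable fun p : (Fin n → ℝ) × (Sym2 (Fin n) → ℝ) => p.2 s(q.1, q.2) :=
      (measurable_pi_apply _).comp measurable_snd
    exact ((hA measurableSet_Ico).inter (hB measurableSet_Iio)).union (hB measurableSet_Iio)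
  have hE : ∫⁻ p, ((Mf p).card : ENNReal) ∂(sample unif n) ≤ (n:ENNReal) ^ 2 *
      ENNReal.ofReal (x ^ 4) := by
    have : ∀ p, ((Mf p).card : ENNReal) =
        ∑ q : Fin n × Fin n, {p | rare x q.1 q.2 p}.indicator (fun _ => (1:ENNReal)) p := by
      intro p
      simp only [hMf]
      rw [Finset.card_filter]
      push_cast
      apply Finset.sum_congr rfl
      intro q _
      simp [indicator]
    simp only [this]
    rw [lintegral_finsetSum]
    · calc ∑ q : Fin n × Fin n, ∫⁻ p, {p | rare x q.1 q.2 p}.indicator (fun _ => (1:ENNReal)) p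
            ∂(sample unif n) ≤ ∑ _q : Fin n × Fin n, ENNReal.ofReal (x ^ 4) := by
            apply Finset.sum_le_sum
            intro q _
            rw [lintegral_indicator (hrm q)]
            simp only [lintegral_const, Measure.restrict_apply MeasurableSet.univ, univ_inter,
              one_mul]
            exact prob_rare h0.le h1 _ _
        _ = _ := by
            simp [Finset.sum_const, Finset.card_univ, sq]
    · intro q _
      exact measurable_const.indicator (hrm q)
  have hmarkov : sample unif n {p | ENNReal.ofReal (n * x / 2) ≤ ((Mf p).card : ENNReal)} ≤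
      ENNReal.ofReal (2 * n * x ^ 3) := by
    have hpos : 0 < n * x / 2 := by positivity
    have hmeas : Measurable fun p => ((Mf p).card : ENNReal) := by
      have : (fun p => ((Mf p).card : ENNReal)) = fun p =>
          ∑ q : Fin n × Fin n, {p | rare x q.1 q.2 p}.indicator (fun _ => (1:ENNReal)) p := by
        funext p
        simp only [hMf]
        rw [Finset.card_filter]
        push_cast
        apply Finset.sum_congr rfl
        intro q _
        simp [indicator]
      rw [this]
      exact Finset.measurable_sum _ fun q _ => measurable_const.indicator (hrm q)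
    have h5 := meas_ge_le_lintegral_div (μ := sample unif n) hmeas.aemeasurable
      (ε := ENNReal.ofReal (n * x / 2)) (by simpa using hpos) (by simp)
    refine h5.trans ?_
    calc (∫⁻ p, ((Mf p).card : ENNReal) ∂(sample unif n)) / ENNReal.ofReal (n * x / 2)
        ≤ ((n:ENNReal) ^ 2 * ENNReal.ofReal (x ^ 4)) / ENNReal.ofReal (n * x / 2) := by gcongr
      _ = ENNReal.ofReal ((n:ℝ) ^ 2 * x ^ 4 / (n * x / 2)) := by
          have e2 : ENNReal.ofReal ((n:ℝ) ^ 2) = (n:ENNReal) ^ 2 := by
            rw [ENNReal.ofReal_pow (by positivity), ENNReal.ofReal_natCast]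
          rw [ENNReal.ofReal_div_of_pos hpos, ENNReal.ofReal_mul (by positivity), e2]
      _ = ENNReal.ofReal (2 * n * x ^ 3) := by
          congr 1; field_simp
  unfold probHam
  refine (measure_mono hsub).trans ((measure_union_le _ _).trans ?_)
  gcongr
  unfold sample
  rw [Measure.prod_prod]
  simp only [measure_univ, mul_one]
  exact cheb (by omega) h0 h1

lemma tendsto_probHam : Tendsto (fun n => probHam unif W n) atTop (𝓝 0) := by
  -- x = n^(-2/5)
  set x : ℕ → ℝ := fun n => (n:ℝ) ^ (-(2/5) : ℝ) with hx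
  have hx0 : Tendsto x atTop (𝓝 0) :=
    (tendsto_rpow_neg_atTop (by norm_num : (0:ℝ) < 2 / 5)).comp tendsto_natCast_atTop_atTop
  have h1 : Tendsto (fun n : ℕ => 4 / ((n:ℝ) * x n ^ 2)) atTop (𝓝 0) := by
    have e : (fun n : ℕ => 4 * ((n:ℝ) ^ (-(1/5) : ℝ))) =ᶠ[atTop]
        fun n : ℕ => 4 / ((n:ℝ) * x n ^ 2) := by
      filter_upwards [eventually_gt_atTop 0] with n hn
      have hn' : (0:ℝ) < n := by exact_mod_cast hn
      have : (n:ℝ) * x n ^ 2 = (n:ℝ) ^ (1/5 : ℝ) := by
        simp only [hx]
        rw [← Real.rpow_natCast, ← Real.rpow_mul hn'.le]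
        nth_rewrite 1 [← Real.rpow_one (n:ℝ)]
        rw [← Real.rpow_add hn']
        norm_num
      rw [this, Real.rpow_neg hn'.le]
      exact (div_eq_mul_inv _ _).symm
    have t : Tendsto (fun n : ℕ => 4 * ((n:ℝ) ^ (-(1/5) : ℝ))) atTop (𝓝 (4 * 0)) :=
      ((tendsto_rpow_neg_atTop (by norm_num : (0:ℝ) < 1 / 5)).comp
        tendsto_natCast_atTop_atTop).const_mul 4
    rw [mul_zero] at t
    exact t.congr' e
  have h2 : Tendsto (fun n : ℕ => 2 * (n:ℝ) * x n ^ 3) atTop (𝓝 0) := by
    have e : (fun n : ℕ => 2 * ((n:ℝ) ^ (-(1/5) : ℝ))) =ᶠ[atTop]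
        fun n : ℕ => 2 * (n:ℝ) * x n ^ 3 := by
      filter_upwards [eventually_gt_atTop 0] with n hn
      have hn' : (0:ℝ) < n := by exact_mod_cast hn
      have : (n:ℝ) * x n ^ 3 = (n:ℝ) ^ (-(1/5) : ℝ) := by
        simp only [hx]
        rw [← Real.rpow_natCast, ← Real.rpow_mul hn'.le]
        nth_rewrite 1 [← Real.rpow_one (n:ℝ)]
        rw [← Real.rpow_add hn']
        norm_num
      rw [mul_assoc, this]
    have t : Tendsto (fun n : ℕ => 2 * ((n:ℝ) ^ (-(1/5) : ℝ))) atTop (𝓝 (2 * 0)) :=
      ((tendsto_rpow_neg_atTop (by norm_num : (0:ℝ) < 1 / 5)).comp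
        tendsto_natCast_atTop_atTop).const_mul 2
    rw [mul_zero] at t
    exact t.congr' e
  have h3 : Tendsto (fun n : ℕ => ENNReal.ofReal (4 / ((n:ℝ) * x n ^ 2)) +
      ENNReal.ofReal (2 * (n:ℝ) * x n ^ 3)) atTop (𝓝 0) := by
    have := (ENNReal.tendsto_ofReal h1).add (ENNReal.tendsto_ofReal h2)
    simpa using this
  refine tendsto_of_tendsto_of_tendsto_of_le_of_le' tendsto_const_nhds h3
    (Eventually.of_forall fun n => zero_le) ?_
  filter_upwards [eventually_ge_atTop 2,
    hx0.eventually_lt_const (show (0:ℝ) < 1 / 3 by norm_num)] with n hn hxn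
  have hn' : (0:ℝ) < n := by exact_mod_cast (by omega : 0 < n)
  exact probHam_le hn (Real.rpow_pos_of_pos hn' _) hxn.le

end Pool.Agent.Q211.Graphon
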