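import Pool.Agent.Q211.Graphon.Defs

open MeasureTheory Set Filter Topology

namespace Pool.Agent.Q211.Graphon

instance : IsProbabilityMeasure unif := by
  constructor
  unfold unif
  simp

lemma unif_Ico {a b : ℝ} (ha : 0 ≤ a) (hb : b ≤ 1) : unif (Ico a b) = ENNReal.ofReal (b - a) := by
  unfold unif
  rw [Measure.restrict_apply measurableSet_Ico, inter_eq_left.2, Real.volume_Ico]
  intro x hx
  exact ⟨ha.trans hx.1, hx.2.le.trans hb⟩

lemma unif_Iio {b : ℝ} (hb : b ≤ 1) : unif (Iio b) = ENNReal.ofReal b := by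
  unfold unif
  rw [Measure.restrict_apply measurableSet_Iio]
  rcases le_or_gt b 0 with h | h
  · have : Iio b ∩ Icc 0 1 = ∅ := by
      ext x; simp only [mem_inter_iff, mem_Iio, mem_Icc, mem_empty_iff_false, iff_false]
      intro hx; linarith [hx.2.1]
    rw [this, measure_empty, ENNReal.ofReal_of_nonpos h]
  · have : Iio b ∩ Icc 0 1 = Ico 0 b := by
      ext x; simp only [mem_inter_iff, mem_Iio, mem_Icc, mem_Ico]
      constructor
      · intro hx; exact ⟨hx.2.1, hx.1⟩
      · intro hx; exact ⟨hx.2, hx.1, by linarith [hx.2]⟩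
    rw [this, Real.volume_Ico, sub_zero]

lemma unif_real_Ico {a b : ℝ} (ha : 0 ≤ a) (hab : a ≤ b) (hb : b ≤ 1) :
    unif.real (Ico a b) = b - a := by
  rw [measureReal_def, unif_Ico ha hb, ENNReal.toReal_ofReal (by linarith)]

lemma unif_real_Iio {b : ℝ} (h0 : 0 ≤ b) (hb : b ≤ 1) : unif.real (Iio b) = b := by
  rw [measureReal_def, unif_Iio hb, ENNReal.toReal_ofReal h0]

/-- shell parameter. -/
noncomputable def sh (u : ℝ) : ℝ := max (u - 2 / 3) 0

lemma measurable_sh : Measurable sh := (measurable_id.sub_const _).max measurable_const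

lemma sh_nonneg (u : ℝ) : 0 ≤ sh u := le_max_right _ _

/-- the graphon. -/
noncomputable def W (u v : ℝ) : ℝ :=
  if u < 1 / 3 ∨ v < 1 / 3 then 1 else min 1 ((min (sh u) (sh v)) ^ 3)

lemma W_symm (u v : ℝ) : W u v = W v u := by
  unfold W
  rw [min_comm (sh u) (sh v)]
  simp only [or_comm]

lemma W_nonneg (u v : ℝ) : 0 ≤ W u v := by
  unfold W
  split_ifs
  · norm_num
  · exact le_min zero_le_one (pow_nonneg (le_min (sh_nonneg _) (sh_nonneg _)) _)

lemma W_le_one (u v : ℝ) : W u v ≤ 1 := by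
  unfold W
  split_ifs
  · exact le_rfl
  · exact min_le_left _ _

lemma W_meas : Measurable (Function.uncurry W) := by
  have : Function.uncurry W = fun p : ℝ × ℝ => if p.1 < 1 / 3 ∨ p.2 < 1 / 3 then 1
      else min 1 ((min (sh p.1) (sh p.2)) ^ 3) := by
    funext p; rfl
  rw [this]
  apply Measurable.ite
  · exact (measurableSet_lt measurable_fst measurable_const).union
      (measurableSet_lt measurable_snd measurable_const)
  · exact measurable_const
  · exact measurable_const.min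
      (((measurable_sh.comp measurable_fst).min (measurable_sh.comp measurable_snd)).pow_const 3)

lemma isGraphon_W : IsGraphon W := ⟨W_meas, W_symm, W_nonneg, W_le_one⟩

lemma W_left {u : ℝ} (h : u < 1 / 3) (v : ℝ) : W u v = 1 := by
  unfold W; rw [if_pos (Or.inl h)]

lemma W_right {v : ℝ} (u : ℝ) (h : v < 1 / 3) : W u v = 1 := by
  unfold W; rw [if_pos (Or.inr h)]

lemma W_pos_of {u v : ℝ} (hu : 2 / 3 < u) (hv : 2 / 3 < v) : 0 < W u v := by
  unfold W
  split_ifs
  · norm_num
  · have h1 : 0 < sh u := lt_max_of_lt_left (by linarith)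
    have h2 : 0 < sh v := lt_max_of_lt_left (by linarith)
    exact lt_min one_pos (pow_pos (lt_min h1 h2) 3)

lemma W_le_pow {u v : ℝ} (hu : 1 / 3 ≤ u) (hv : 1 / 3 ≤ v) : W u v ≤ sh u ^ 3 := by
  unfold W
  rw [if_neg (by push Not; exact ⟨hu, hv⟩)]
  refine (min_le_right _ _).trans ?_
  exact pow_le_pow_left₀ (le_min (sh_nonneg _) (sh_nonneg _)) (min_le_left _ _) 3

lemma unif_C : unif (Iio (1 / 3)) ≠ 0 := by
  rw [unif_Iio (by norm_num)]
  simp

lemma integrableOn_W (s : Set (ℝ × ℝ)) : IntegrableOn (Function.uncurry W) s (unif.prod unif) := by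
  apply Integrable.integrableOn
  refine Integrable.of_bound W_meas.aestronglyMeasurable 1 (Eventually.of_forall fun p => ?_)
  rw [Real.norm_eq_abs, abs_le]
  exact ⟨by linarith [W_nonneg p.1 p.2, show Function.uncurry W p = W p.1 p.2 from rfl],
    W_le_one p.1 p.2⟩

lemma pos_of_sub {s t : Set (ℝ × ℝ)} (hs : MeasurableSet s) (ht : MeasurableSet t) (hst : s ⊆ t)
    (hW : ∀ p ∈ s, W p.1 p.2 = 1) (hpos : (unif.prod unif) s ≠ 0) :
    0 < ∫ p in t, Function.uncurry W p ∂(unif.prod unif) := by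
  have h1 : ∫ p in s, Function.uncurry W p ∂(unif.prod unif) = (unif.prod unif).real s := by
    rw [show ∫ p in s, Function.uncurry W p ∂(unif.prod unif) = ∫ p in s, (1:ℝ) ∂(unif.prod unif)
      from setIntegral_congr_fun hs (fun p hp => hW p hp)]
    simp
  have h2 : ∫ p in s, Function.uncurry W p ∂(unif.prod unif) ≤
      ∫ p in t, Function.uncurry W p ∂(unif.prod unif) :=
    setIntegral_mono_set (integrableOn_W t) (Eventually.of_forall fun p => W_nonneg p.1 p.2)
      hst.eventuallyLE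
  have h3 : 0 < (unif.prod unif).real s := ENNReal.toReal_pos hpos (measure_ne_top _ _)
  linarith

lemma connected_W : IsConnected unif W := by
  intro S hS h1 h2
  have hC : MeasurableSet (Iio (1 / 3 : ℝ)) := measurableSet_Iio
  by_cases h : unif (S ∩ Iio (1 / 3)) = 0
  · have h' : unif (Sᶜ ∩ Iio (1 / 3)) ≠ 0 := by
      intro h'
      apply unif_C
      have : Iio (1 / 3 : ℝ) ⊆ (S ∩ Iio (1 / 3)) ∪ (Sᶜ ∩ Iio (1 / 3)) := by
        intro x hx
        by_cases hxS : x ∈ S
        · exact Or.inl ⟨hxS, hx⟩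
        · exact Or.inr ⟨hxS, hx⟩
      exact measure_mono_null this (measure_union_null h h')
    apply pos_of_sub (s := S ×ˢ (Sᶜ ∩ Iio (1 / 3))) (hS.prod (hS.compl.inter hC))
      (hS.prod hS.compl) (prod_mono_right inter_subset_left)
    · rintro ⟨u, v⟩ ⟨-, -, hv⟩
      exact W_right u hv
    · rw [Measure.prod_prod]
      exact mul_ne_zero h1.ne' h'
  · apply pos_of_sub (s := (S ∩ Iio (1 / 3)) ×ˢ Sᶜ) ((hS.inter hC).prod hS.compl)
      (hS.prod hS.compl) (prod_mono_left inter_subset_left)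
    · rintro ⟨u, v⟩ ⟨⟨-, hu⟩, -⟩
      exact W_left hu v
    · rw [Measure.prod_prod]
      exact mul_ne_zero h h2.ne'

lemma deg_W (x : ℝ) : 1 / 3 ≤ deg unif W x := by
  unfold deg
  have h1 : unif.real (Iio (1 / 3)) = 1 / 3 := unif_real_Iio (by norm_num) (by norm_num)
  have hm : Measurable fun y => W x y := W_meas.comp measurable_prodMk_left
  calc (1 / 3 : ℝ) = ∫ y, (Iio (1 / 3 : ℝ)).indicator (fun _ => (1:ℝ)) y ∂unif := by
        rw [integral_indicator measurableSet_Iio, setIntegral_const, smul_eq_mul, mul_one, h1]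
    _ ≤ ∫ y, W x y ∂unif := by
        apply integral_mono
        · exact (integrable_const 1).indicator measurableSet_Iio
        · refine Integrable.of_bound hm.aestronglyMeasurable 1 (Eventually.of_forall fun y => ?_)
          rw [Real.norm_eq_abs, abs_le]
          exact ⟨by linarith [W_nonneg x y], W_le_one x y⟩
        · intro y
          by_cases hy : y ∈ Iio (1 / 3 : ℝ)
          · rw [indicator_of_mem hy, W_right x hy]
          · rw [indicator_of_notMem hy]; exact W_nonneg x y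

lemma not_manyLow_W : ¬ ManyLowDegrees unif W := by
  intro h
  unfold ManyLowDegrees at h
  have h1 : ∀ᶠ α : ℝ in 𝓝[>] 0, unif.real {x | deg unif W x ≤ α} / α = 0 := by
    have : ∀ᶠ α : ℝ in 𝓝[>] 0, α < 1 / 3 :=
      nhdsWithin_le_nhds (Iio_mem_nhds (by norm_num))
    filter_upwards [this] with α hα
    have : {x | deg unif W x ≤ α} = ∅ := by
      ext x
      simp only [Set.mem_ofPred_eq, mem_empty_iff_false, iff_false, not_le]
      linarith [deg_W x]
    rw [this]; simp
  have h2 := h.eventually_gt_atTop 0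
  obtain ⟨α, h3, h4⟩ := (h1.and h2).exists
  linarith

lemma null_of_ae {S T : Set ℝ}
    (h : ∀ᵐ p ∂(unif.prod unif), ¬ (p.1 ∈ S ∧ p.2 ∈ T)) : unif S = 0 ∨ unif T = 0 := by
  rw [ae_iff] at h
  have : {p : ℝ × ℝ | ¬ ¬ (p.1 ∈ S ∧ p.2 ∈ T)} = S ×ˢ T := by
    ext p; simp only [not_not]; rfl
  rw [this, Measure.prod_prod] at h
  exact mul_eq_zero.1 h

lemma not_narrow_W : ¬ HasNarrowPeninsula unif W := by
  rintro ⟨a, A, B, ha0, ha, hA, hB, hdisj, hAa, hBa, hW⟩
  set E := A ∪ B with hE
  have hEm : MeasurableSet E := hA.union hB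
  have hEr : unif.real E = unif.real A + unif.real B := measureReal_union hdisj hB
  have hA0 : unif A ≠ 0 := by
    intro h
    rw [measureReal_def, h] at hAa
    simp at hAa
    linarith
  -- no mass in C
  have h1 : unif (E ∩ Iio (1 / 3)) = 0 := by
    rcases null_of_ae (S := A) (T := E ∩ Iio (1 / 3)) (by
      filter_upwards [hW] with p hp
      rintro ⟨h1, h2, h3⟩
      have := hp h1 h2
      rw [W_right p.1 h3] at this
      norm_num at this) with h | h
    · exact absurd h hA0
    · exact h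
  have h2 : unif (A ∩ Ioi (2 / 3)) = 0 := by
    rcases null_of_ae (S := A ∩ Ioi (2 / 3)) (T := A ∩ Ioi (2 / 3)) (by
      filter_upwards [hW] with p hp
      rintro ⟨⟨h1, h2⟩, h3, h4⟩
      have h5 := hp h1 (Or.inl h3)
      have h6 := W_pos_of h2 h4
      linarith) with h | h <;> exact h
  -- measure of A at most 1/3
  have h3 : unif.real A ≤ 1 / 3 := by
    have hsub : A ⊆ ((E ∩ Iio (1 / 3)) ∪ (A ∩ Ioi (2 / 3))) ∪ (Icc (1 / 3) (2 / 3)) := by
      intro x hx
      by_cases hx1 : x < 1 / 3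
      · exact Or.inl (Or.inl ⟨Or.inl hx, hx1⟩)
      · by_cases hx2 : 2 / 3 < x
        · exact Or.inl (Or.inr ⟨hx, hx2⟩)
        · exact Or.inr ⟨not_lt.1 hx1, not_lt.1 hx2⟩
    have hle : unif A ≤ ENNReal.ofReal (1 / 3) := by
      calc unif A ≤ unif (((E ∩ Iio (1 / 3)) ∪ (A ∩ Ioi (2 / 3))) ∪ (Icc (1 / 3) (2 / 3))) :=
            measure_mono hsub
        _ ≤ unif ((E ∩ Iio (1 / 3)) ∪ (A ∩ Ioi (2 / 3))) + unif (Icc (1 / 3) (2 / 3)) :=
            measure_union_le _ _
        _ = unif (Icc (1 / 3) (2 / 3)) := by rw [measure_union_null h1 h2, zero_add]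
        _ ≤ volume (Icc (1 / 3 : ℝ) (2 / 3)) := Measure.restrict_apply_le _ _
        _ = ENNReal.ofReal (1 / 3) := by rw [Real.volume_Icc]; norm_num
    rw [measureReal_def]
    exact ENNReal.toReal_le_of_le_ofReal (by norm_num) hle
  have h4 : unif.real E ≤ 2 / 3 := by
    have hsub : E ⊆ (E ∩ Iio (1 / 3)) ∪ (Iio (1 / 3))ᶜ := by
      intro x hx
      by_cases hx1 : x < 1 / 3
      · exact Or.inl ⟨hx, hx1⟩
      · exact Or.inr hx1
    have hle : unif.real E ≤ unif.real (Iio (1 / 3))ᶜ := by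
      rw [measureReal_def, measureReal_def]
      apply ENNReal.toReal_mono (measure_ne_top _ _)
      refine (measure_mono hsub).trans ((measure_union_le _ _).trans ?_)
      rw [h1, zero_add]
    rw [probReal_compl_eq_one_sub measurableSet_Iio,
      unif_real_Iio (by norm_num) (by norm_num)] at hle
    linarith
  linarith

lemma not_bip_W : ¬ IsBalancedBipartite unif W := by
  rintro ⟨S, hS, -, -, hW⟩
  have key : ∀ T : Set ℝ, (∀ᵐ p ∂(unif.prod unif), p.1 ∈ T → p.2 ∈ T → W p.1 p.2 = 0) →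
      unif (T ∩ Iio (1 / 3)) = 0 := by
    intro T hT
    rcases null_of_ae (S := T ∩ Iio (1 / 3)) (T := T ∩ Iio (1 / 3)) (by
      filter_upwards [hT] with p hp
      rintro ⟨⟨h1, h2⟩, h3, h4⟩
      have h5 := hp h1 h3
      rw [W_left h2] at h5
      norm_num at h5) with h | h <;> exact h
  have h1 := key S (by filter_upwards [hW] with p hp h1 h2 using hp (Or.inl ⟨h1, h2⟩))
  have h2 := key Sᶜ (by filter_upwards [hW] with p hp h1 h2 using hp (Or.inr ⟨h1, h2⟩))
  apply unif_C
  have : Iio (1 / 3 : ℝ) ⊆ (S ∩ Iio (1 / 3)) ∪ (Sᶜ ∩ Iio (1 / 3)) := by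
    intro x hx
    by_cases hxS : x ∈ S
    · exact Or.inl ⟨hxS, hx⟩
    · exact Or.inr ⟨hxS, hx⟩
  exact measure_mono_null this (measure_union_null h1 h2)

end Pool.Agent.Q211.Graphon
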